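import Pool.Agent.N62.AG.Stm

set_option autoImplicit false

/-! # The counting function -/

namespace Pool.Agent.N327.AG.CNT

open Pool.Agent.N62.AG

lemma cnt_eq (p n : ℕ) : cnt p n = ((Finset.range n).filter (fun i => onC p i)).card := by
  induction n with
  | zero => rfl
  | succ n ih =>
    have h : cnt p (n + 1) = if onC p n then cnt p n + 1 else cnt p n := rfl
    rw [h, Finset.range_add_one, Finset.filter_insert, ih]
    split_ifs with h
    · rw [Finset.card_insert_of_notMem (by simp)]
    · rfl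

theorem t : S_CNT := by
  intro p hp
  haveI : Fact p.Prime := ⟨hp⟩
  classical
  rw [cnt_eq, Nat.card_eq_fintype_card, Fintype.card_subtype]
  have hp0 : 0 < p := hp.pos
  have hiff : ∀ i : ℕ, onC p i ↔ ((i / p : ℕ) : ZMod p) ^ 2 =
      ((i % p : ℕ) : ZMod p) ^ 3 + (5805 : ZMod p) * ((i % p : ℕ) : ZMod p) + (-285714 : ZMod p) := by
    intro i
    unfold onC
    rw [← ZMod.natCast_eq_natCast_iff']
    push_cast
    constructor
    · intro h
      linear_combination h
    · intro h
      linear_combination h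
  refine Finset.card_bij (fun i _ => (((i % p : ℕ) : ZMod p), ((i / p : ℕ) : ZMod p))) ?_ ?_ ?_
  · intro i hi
    rw [Finset.mem_filter] at hi ⊢
    exact ⟨Finset.mem_univ _, (hiff i).1 hi.2⟩
  · intro i hi j hj h
    rw [Finset.mem_filter, Finset.mem_range] at hi hj
    simp only [Prod.mk.injEq] at h
    obtain ⟨h1, h2⟩ := h
    rw [ZMod.natCast_eq_natCast_iff', Nat.mod_mod, Nat.mod_mod] at h1
    rw [ZMod.natCast_eq_natCast_iff', Nat.mod_eq_of_lt (Nat.div_lt_of_lt_mul hi.1),
      Nat.mod_eq_of_lt (Nat.div_lt_of_lt_mul hj.1)] at h2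
    rw [← Nat.mod_add_div i p, ← Nat.mod_add_div j p, h1, h2]
  · rintro ⟨x, y⟩ hxy
    rw [Finset.mem_filter] at hxy
    have hx := ZMod.val_lt x
    have hy := ZMod.val_lt y
    have e1 : (y.val * p + x.val) % p = x.val := by
      rw [Nat.mul_comm, Nat.mul_add_mod, Nat.mod_eq_of_lt hx]
    have e2 : (y.val * p + x.val) / p = y.val := by
      rw [Nat.mul_comm, Nat.mul_add_div hp0, Nat.div_eq_of_lt hx, add_zero]
    have lt : y.val * p + x.val < p * p := by nlinarith
    refine ⟨y.val * p + x.val, ?_, ?_⟩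
    · rw [Finset.mem_filter, Finset.mem_range]
      refine ⟨lt, (hiff _).2 ?_⟩
      rw [e1, e2, ZMod.natCast_zmod_val, ZMod.natCast_zmod_val]
      exact hxy.2
    · simp only [e1, e2, ZMod.natCast_zmod_val]

end Pool.Agent.N327.AG.CNT
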